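import Mathlib

namespace Pool.Agent.H19.Mn

open Set Real
open scoped RealInnerProductSpace

abbrev E := EuclideanSpace ℝ (Fin 4)

/-- the Euclidean space `ℝ^4 × ℝ^k` in which `S^3 × ℝ^k` lies -/
abbrev W (k : ℕ) := E × EuclideanSpace ℝ (Fin k)

/-- the manifold `S^3 × ℝ^k`, the universal cover of the closed manifold `S^3 × T^k`,
`T^k = ℝ^k / ℤ^k` -/
def Cov (k : ℕ) : Set (W k) := {x | ‖x.1‖ = 1}

/-- the lift to `S^3 × ℝ^k` of a Lagrangian of the closed manifold `S^3 × T^k`: invariant under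
`ℤ^k`, real analytic, fibrewise strictly convex, uniformly superlinear -/
def Tonelli {k : ℕ} (L : W k → W k → ℝ) : Prop :=
  ContDiff ℝ ⊤ (fun p : W k × W k => L p.1 p.2) ∧
  (∀ (n : Fin k → ℤ) x v, L (x.1, x.2 + WithLp.toLp 2 fun i => (n i : ℝ)) v = L x v) ∧
  (∀ x v w, w ≠ 0 → 0 < fderiv ℝ (fun u => fderiv ℝ (L x) u w) v w) ∧
  ∀ K, ∃ R, ∀ x ∈ Cov k, ∀ v, R ≤ ‖v‖ → K * ‖v‖ ≤ L x v

/-- the energy `E(x,v)` -/
noncomputable def energy {k : ℕ} (L : W k → W k → ℝ) (x v : W k) : ℝ :=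
  fderiv ℝ (L x) v v - L x v

/-- a solution on `[0,T]` of the Euler-Lagrange equation of `L` restricted to
`T (S^3 × ℝ^k)`, energy `h` -/
def Traj {k : ℕ} (L : W k → W k → ℝ) (h T : ℝ) (γ : ℝ → W k) : Prop :=
  ∃ γ' : ℝ → W k, ∀ t ∈ Icc 0 T, γ t ∈ Cov k ∧ HasDerivAt γ (γ' t) t ∧
    energy L (γ t) (γ' t) = h ∧
    ∃ p : W k →L[ℝ] ℝ, HasDerivAt (fun s => fderiv ℝ (L (γ s)) (γ' s)) p t ∧
      ∀ w : W k, ⟪(γ t).1, w.1⟫ = 0 → p w = fderiv ℝ (fun x => L x (γ' t)) (γ t) w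

/-- the set of `c` whose infimum is the critical value -/
def Crit {k : ℕ} (L : W k → W k → ℝ) : Set ℝ :=
  {c | ∀ T > 0, ∀ γ : ℝ → W k, AbsolutelyContinuousOnInterval γ 0 T → γ 0 = γ T →
    (∀ t ∈ Icc 0 T, γ t ∈ Cov k) → 0 ≤ ∫ t in (0 : ℝ)..T, (L (γ t) (deriv γ t) + c)}

/-- the energies `h` at which `x` is joined to every point of `S^3 × ℝ^k` -/
def ConnFrom {k : ℕ} (L : W k → W k → ℝ) (x : W k) : Set ℝ :=
  {h | ∀ y ∈ Cov k, ∃ T > 0, ∃ γ, Traj L h T γ ∧ γ 0 = x ∧ γ T = y}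

/-- the energies at which some point is joined to every point of `S^3 × ℝ^k` -/
def Conn {k : ℕ} (L : W k → W k → ℝ) : Set ℝ :=
  {h | ∃ x ∈ Cov k, h ∈ ConnFrom L x}

end Pool.Agent.H19.Mn
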