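import Pool.Agent.H19.Mn.Defs

/-!
# MP_82af14_an: connecting orbits below the critical value, in every dimension `n ≥ 3`

`M = S^3 × T^k`, universal cover `S^3 × ℝ^k`, and
`L((x,τ),(v,w)) = |v - A x|² / 2 + |w|² / 2`, where `A(z₁,z₂) = (i z₁, i N z₂)` on
`S^3 ⊂ ℂ² = ℝ^4`, with `N` a large integer. The flow `φ` of `A` has action zero, so `c_u = 0`.
The extremals are `(φ_t (cos(ρt) x + sin(ρt) w), b + t c)` (great circles in a rotating frame). The
starting point is `x₀ = (√(1-1/N²), 1/N)`, whose components move with speeds about `1` and equal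
to `1`. For every `y` there are arbitrarily late times at which both components of `φ_t x₀` move
almost exactly towards (or away from) those of `y` (`big`), so that the distance from `φ_t x₀` to
`y` changes at a rate of at least `√(1-1/N²) cos(π/N)`; an intermediate value argument for the
time, the number of turns being fixed at such a late time, gives the connecting trajectory of
energy `h` for every `h > -(1-1/N²) cos²(π/N) / 2` (`conn`); the targets which are `± φ_t x₀` for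
some `t` need a separate argument (`conj`).
-/

namespace Pool.Agent.H19.Mn

open Set Real
open scoped RealInnerProductSpace

noncomputable def R (a b c d : ℝ) : E →L[ℝ] E := LinearMap.toContinuousLinearMap
  { toFun u := !₂[a * u 0 - b * u 1, b * u 0 + a * u 1, c * u 2 - d * u 3, d * u 2 + c * u 3]
    map_add' u v := by ext i; fin_cases i <;> simp <;> ring
    map_smul' u v := by ext i; fin_cases i <;> simp <;> ring }

lemma R_ap (a b c d : ℝ) (u : E) : R a b c d u =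
    !₂[a * u 0 - b * u 1, b * u 0 + a * u 1, c * u 2 - d * u 3, d * u 2 + c * u 3] := rfl

lemma inn (u v : E) : ⟪u, v⟫ = u 0 * v 0 + u 1 * v 1 + u 2 * v 2 + u 3 * v 3 := by
  simp [PiLp.inner_apply, Fin.sum_univ_four, mul_comm]

variable (N : ℕ)

noncomputable def φ (t : ℝ) := R (cos t) (sin t) (cos (N * t)) (sin (N * t))
noncomputable def A := R 0 1 0 N

lemma φ_inn (t : ℝ) (u v : E) : ⟪φ N t u, φ N t v⟫ = ⟪u, v⟫ := by
  simp only [inn, φ, R_ap]
  simp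
  linear_combination (u 0 * v 0 + u 1 * v 1) * cos_sq_add_sin_sq t +
    (u 2 * v 2 + u 3 * v 3) * cos_sq_add_sin_sq (N * t)

lemma φ_norm (t : ℝ) (u : E) : ‖φ N t u‖ = ‖u‖ := by
  simp only [norm_eq_sqrt_real_inner, φ_inn]

lemma φ_A (t : ℝ) (u : E) : A N (φ N t u) = φ N t (A N u) := by
  ext i; fin_cases i <;> simp [φ, A, R_ap] <;> ring

lemma skew (u v : E) : ⟪A N u, v⟫ = -⟪u, A N v⟫ := by
  simp [inn, A, R_ap]; ring

lemma φ_neg (t : ℝ) (u : E) : φ N t (φ N (-t) u) = u := by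
  have h1 := cos_sq_add_sin_sq t
  have h2 := cos_sq_add_sin_sq (N * t)
  ext i; fin_cases i <;> simp [φ, R_ap] <;> grind

lemma φ_per (t : ℝ) (n : ℤ) : φ N (t + n * (2 * π)) = φ N t := by
  have : N * (t + n * (2 * π)) = N * t + ((N : ℤ) * n : ℤ) * (2 * π) := by push_cast; ring
  simp only [φ, this, cos_add_int_mul_two_pi, sin_add_int_mul_two_pi]

lemma φ_zero (u : E) : φ N 0 u = u := by
  ext i; fin_cases i <;> simp [φ, R_ap]

lemma φ_der {c : ℝ → E} {c' : E} {t : ℝ} (h : HasDerivAt c c' t) :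
    HasDerivAt (fun s => φ N s (c s)) (A N (φ N t (c t)) + φ N t c') t := by
  have e : φ N = fun s => cos s • R 1 0 0 0 + sin s • R 0 1 0 0 + cos (N * s) • R 0 0 1 0 +
      sin (N * s) • R 0 0 0 1 := by
    ext s u i; fin_cases i <;> simp [φ, R_ap] <;> ring
  have h2 := (hasDerivAt_id' t).const_mul (N : ℝ)
  have := (((((hasDerivAt_cos t).smul_const (R 1 0 0 0)).fun_add ((hasDerivAt_sin t).smul_const
    (R 0 1 0 0))).fun_add (h2.cos.smul_const (R 0 0 1 0))).fun_add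
    (h2.sin.smul_const (R 0 0 0 1))).clm_apply h
  rw [e]
  refine this.congr_deriv ?_
  ext i; fin_cases i <;> simp [A, R_ap] <;> ring

variable {k : ℕ}

/-- the Lagrangian -/
noncomputable def L (x v : W k) : ℝ := 1 / 2 * ‖v.1 - A N x.1‖ ^ 2 + 1 / 2 * ‖v.2‖ ^ 2

/-- its fibre derivative -/
noncomputable def Lv (u : E) (c : EuclideanSpace ℝ (Fin k)) : W k →L[ℝ] ℝ :=
  (innerSL ℝ u).comp (ContinuousLinearMap.fst ℝ _ _) +
    (innerSL ℝ c).comp (ContinuousLinearMap.snd ℝ _ _)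

lemma Lv_ap (u : E) (c : EuclideanSpace ℝ (Fin k)) (w : W k) :
    Lv u c w = ⟪u, w.1⟫ + ⟪c, w.2⟫ := rfl

lemma L_v (x v : W k) : fderiv ℝ (L N x) v = Lv (v.1 - A N x.1) v.2 := by
  have := (((hasFDerivAt_fst (p := v)).sub_const (A N x.1)).norm_sq.const_mul (1 / 2)).add
    ((hasFDerivAt_snd (𝕜 := ℝ) (p := v)).norm_sq.const_mul (1 / 2))
  refine this.fderiv.trans ?_
  ext <;> simp [Lv_ap, inner_sub_left]

lemma L_x (x v w : W k) :
    fderiv ℝ (fun x => L N x v) x w = ⟪A N (v.1 - A N x.1), w.1⟫ := by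
  have := ((((A N).hasFDerivAt.comp x (hasFDerivAt_fst (𝕜 := ℝ) (p := x))).const_sub
    v.1).norm_sq.const_mul (1 / 2)).add_const (1 / 2 * ‖v.2‖ ^ 2)
  refine (congrArg (· w) this.fderiv).trans ?_
  rw [skew]; simp [inner_sub_left]

lemma en (x v : W k) : energy (L N) x v = 1 / 2 * ‖v.1‖ ^ 2 + 1 / 2 * ‖v.2‖ ^ 2 -
    1 / 2 * ‖A N x.1‖ ^ 2 := by
  rw [energy, L_v, Lv_ap, L]
  simp only [← real_inner_self_eq_norm_sq, inner_sub_left, inner_sub_right,
    real_inner_comm (A N x.1) v.1]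
  ring

lemma ton : Tonelli (k := k) (L N) := by
  refine ⟨?_, fun n x v => rfl, fun x v w hw => ?_, fun K => ⟨4 * ‖A N‖ + 8 * |K|, fun x hx v hv => ?_⟩⟩
  · unfold L
    refine (contDiff_const.mul (ContDiff.norm_sq ℝ ?_)).add (contDiff_const.mul (ContDiff.norm_sq ℝ ?_))
    · exact (contDiff_fst.comp contDiff_snd).sub ((A N).contDiff.comp (contDiff_fst.comp contDiff_fst))
    · exact contDiff_snd.comp contDiff_snd
  · have : (fun u => fderiv ℝ (L N x) u w) = fun u => Lv w.1 w.2 u - ⟪w.1, A N x.1⟫ := by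
      ext u
      simp only [L_v, Lv_ap, inner_sub_left]
      rw [real_inner_comm w.1 u.1, real_inner_comm w.2 u.2, real_inner_comm w.1 (A N x.1)]
      ring
    rw [this, ((Lv w.1 w.2).hasFDerivAt.sub_const _).fderiv, Lv_ap, real_inner_self_eq_norm_sq,
      real_inner_self_eq_norm_sq]
    rcases eq_or_ne w.1 0 with h | h
    · have : w.2 ≠ 0 := fun h' => hw (Prod.ext h h')
      have := pow_pos (norm_pos_iff.2 this) 2
      positivity
    · have := pow_pos (norm_pos_iff.2 h) 2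
      positivity
  · have hx : ‖x.1‖ = 1 := hx
    have h1 := (A N).le_opNorm x.1
    have h2 := norm_sub_norm_le v.1 (A N x.1)
    have h3 := le_abs_self K
    have h4 := abs_nonneg K
    have h5 := norm_nonneg (A N)
    unfold L
    rcases le_total ‖v.1‖ ‖v.2‖ with h | h
    · have e : ‖v‖ = ‖v.2‖ := max_eq_right h
      rw [e] at hv ⊢
      have := sq_nonneg ‖v.1 - A N x.1‖
      nlinarith [norm_nonneg v.2]
    · have e : ‖v‖ = ‖v.1‖ := max_eq_left h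
      rw [e] at hv ⊢
      have h6 : ‖v.1‖ / 2 ≤ ‖v.1 - A N x.1‖ := by rw [hx] at h1; linarith
      have := pow_le_pow_left₀ (by positivity) h6 2
      have := sq_nonneg ‖v.2‖
      nlinarith [norm_nonneg v.1]

lemma traj {x w : E} (hx : ‖x‖ = 1) (hw : ‖w‖ = 1) (h : ⟪x, w⟫ = 0) (ρ T : ℝ)
    (b c : EuclideanSpace ℝ (Fin k)) :
    Traj (L N) (ρ ^ 2 / 2 + ρ * ⟪w, A N x⟫ + ‖c‖ ^ 2 / 2) T
      fun t => (φ N t (cos (ρ * t) • x + sin (ρ * t) • w), b + t • c) := by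
  have d : ∀ t (u v : E), HasDerivAt (fun t => cos (ρ * t) • u + sin (ρ * t) • v)
      (cos (ρ * t) • ρ • v + sin (ρ * t) • -ρ • u) t := fun t u v => by
    have h2 := (hasDerivAt_id' t).const_mul ρ
    exact ((h2.cos.smul_const u).fun_add (h2.sin.smul_const v)).congr_deriv (by module)
  have h1 : ⟪x, x⟫ = 1 := by rw [real_inner_self_eq_norm_sq, hx, one_pow]
  have h2 : ⟪w, w⟫ = 1 := by rw [real_inner_self_eq_norm_sq, hw, one_pow]
  have h3 : ⟪w, x⟫ = 0 := by rw [real_inner_comm, h]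
  have h4 : ∀ u, ⟪u, A N u⟫ = 0 := fun u => by
    have := skew N u u; rw [real_inner_comm] at this; linarith
  have h5 : ⟪x, A N w⟫ = -⟪w, A N x⟫ := by rw [← skew, real_inner_comm]
  refine ⟨fun t => (A N (φ N t (cos (ρ * t) • x + sin (ρ * t) • w)) +
    φ N t (cos (ρ * t) • ρ • w + sin (ρ * t) • -ρ • x), c), fun t _ => ⟨?_,
      (φ_der N (d t x w)).prodMk (by simpa using ((hasDerivAt_id' t).smul_const c).const_add b),
      ?_, ?_⟩⟩
  · change ‖_‖ = 1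
    simp only [φ_inn, norm_eq_sqrt_real_inner, inner_add_left, inner_add_right,
      real_inner_smul_left, real_inner_smul_right, h, h1, h2, h3]
    rw [sqrt_eq_one]
    linear_combination cos_sq_add_sin_sq (ρ * t)
  · simp only [energy, Lv_ap, L_v, L, add_sub_cancel_left, ← real_inner_self_eq_norm_sq, φ_A,
      inner_add_right, φ_inn]
    simp only [map_add, map_smul, inner_add_left, inner_add_right,
      real_inner_smul_left, real_inner_smul_right, h, h1, h2, h3, h4, h5]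
    linear_combination (ρ ^ 2 / 2 + ρ * ⟪w, A N x⟫) * cos_sq_add_sin_sq (ρ * t)
  · simp only [L_v, add_sub_cancel_left]
    have D := ((innerSL ℝ (E := E)).hasFDerivAt.comp_hasDerivAt t
      (φ_der N (d t (ρ • w) (-ρ • x)))).clm_comp
      (hasDerivAt_const t (ContinuousLinearMap.fst ℝ E (EuclideanSpace ℝ (Fin k))))
    refine ⟨_, D.add_const ((innerSL ℝ c).comp (ContinuousLinearMap.snd ℝ _ _)), fun u hu => ?_⟩
    have : cos (ρ * t) • ρ • -ρ • x + sin (ρ * t) • -ρ • ρ • w =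
        -ρ ^ 2 • (cos (ρ * t) • x + sin (ρ * t) • w) := by module
    rw [L_x]
    simp only [add_sub_cancel_left, ContinuousLinearMap.comp_zero, add_zero]
    rw [ContinuousLinearMap.comp_apply, innerSL_apply_apply, inner_add_left, this, map_smul,
      real_inner_smul_left, ContinuousLinearMap.coe_fst', hu, mul_zero, add_zero]

/-- the starting point: `(√(1 - 1/N²), 1/N)` in `S^3 ⊂ ℂ²`, and `0` in `ℝ^k` -/
noncomputable def x₀ : E := !₂[√(1 - (1 / N) ^ 2), 0, 1 / N, 0]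

lemma nrm {u : E} (h : ⟪u, u⟫ = 1) : ‖u‖ = 1 := by rw [norm_eq_sqrt_real_inner, h, sqrt_one]

lemma inv_le {N : ℕ} (hN : 1 ≤ N) : (1 / (N : ℝ)) ^ 2 ≤ 1 := by
  have : (1 : ℝ) ≤ N := by exact_mod_cast hN
  rw [one_div, inv_pow]
  exact inv_le_one_of_one_le₀ (one_le_pow₀ this)

lemma x1 {N : ℕ} (hN : 1 ≤ N) : ⟪x₀ N, x₀ N⟫ = 1 := by
  have := sq_sqrt (sub_nonneg.2 (inv_le hN))
  rw [inn]; simp [x₀] at this ⊢
  have h2 : ((N : ℝ) ^ 2)⁻¹ = (N : ℝ)⁻¹ * (N : ℝ)⁻¹ := by rw [← mul_inv, pow_two]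
  nlinarith

lemma reach {N : ℕ} (hN : 1 ≤ N) {y : W k} {w : E} {T θ η : ℝ} (hT : 0 < T) (hw : ‖w‖ = 1)
    (h : ⟪x₀ N, w⟫ = 0) (e : φ N (-T) y.1 = cos θ • x₀ N + sin θ • w)
    (g : θ ^ 2 / 2 + T * θ * ⟪w, A N (x₀ N)⟫ + ‖y.2‖ ^ 2 / 2 + T ^ 2 * η = 0) :
    ∃ T > 0, ∃ γ, Traj (L N) (-η) T γ ∧ γ 0 = (x₀ N, 0) ∧ γ T = y := by
  have := traj N (nrm (x1 hN)) hw h (θ / T) T (0 : EuclideanSpace ℝ (Fin k)) (T⁻¹ • y.2)
  rw [norm_smul, norm_inv, norm_of_nonneg hT.le, show (θ / T) ^ 2 / 2 +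
      θ / T * ⟪w, A N (x₀ N)⟫ + (T⁻¹ * ‖y.2‖) ^ 2 / 2 = -η by
    field_simp; linear_combination 2 * g] at this
  refine ⟨T, hT, _, this, by simp [φ_zero], Prod.ext ?_ ?_⟩
  · simp only [div_mul_cancel₀ θ hT.ne', ← e, φ_neg]
  · simp [smul_smul, mul_inv_cancel₀ hT.ne']

lemma inn_A {N : ℕ} (hN : 1 ≤ N) (w : E) :
    ⟪w, A N (x₀ N)⟫ = √(1 - (1 / (N : ℝ)) ^ 2) * w 1 + w 3 := by
  have h0 : (N : ℝ) ≠ 0 := by positivity
  rw [inn]
  simp [A, R_ap, x₀, h0, mul_comm]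

lemma a_le (N : ℕ) : √(1 - (1 / (N : ℝ)) ^ 2) ≤ 1 := by
  have := sq_nonneg (1 / (N : ℝ))
  exact sqrt_le_iff.2 ⟨by norm_num, by linarith⟩

lemma cosN {N : ℕ} (hN : 2 ≤ N) : 0 ≤ cos (π / N) ∧ π / N ≤ π := by
  have h2 : (2 : ℝ) ≤ N := by exact_mod_cast hN
  have h0 : (0 : ℝ) < N := by linarith
  have h1 : π / N ≤ π / 2 := div_le_div_of_nonneg_left pi_pos.le (by norm_num) h2
  have p := pi_pos
  refine ⟨cos_nonneg_of_neg_pi_div_two_le_of_le (by have := div_pos p h0; linarith) h1, ?_⟩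
  linarith

lemma polar (a b t : ℝ) : ‖(⟨b, a⟩ : ℂ)‖ * cos (t + Complex.arg ⟨b, a⟩) =
    -sin t * a + cos t * b := by
  rw [cos_add]
  have h1 := Complex.norm_mul_cos_arg ⟨b, a⟩
  have h2 := Complex.norm_mul_sin_arg ⟨b, a⟩
  simp only at h1 h2
  linear_combination cos t * h1 - sin t * h2

lemma big {N : ℕ} (hN : 2 ≤ N) {y : E} (hy : ‖y‖ = 1) (M : ℝ) :
    ∃ T, M ≤ T ∧ √(1 - (1 / (N : ℝ)) ^ 2) * cos (π / N) ≤ ⟪φ N (-T) y, A N (x₀ N)⟫ := by
  have p := pi_pos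
  have h2 : (2 : ℝ) ≤ N := by exact_mod_cast hN
  have h0 : (0 : ℝ) < N := by linarith
  obtain ⟨cN, pN⟩ := cosN hN
  obtain ⟨l, hl⟩ := exists_int_gt ((M + 2 * π) / (2 * π))
  rw [div_lt_iff₀ (by positivity)] at hl
  set α := Complex.arg ⟨y 1, y 0⟩ with hα
  set β := Complex.arg ⟨y 3, y 2⟩ with hβ
  have hα1 := Complex.arg_le_pi ⟨y 1, y 0⟩
  rw [← hα] at hα1
  set r : ℝ := (N * (2 * π * l - α) + β) / (2 * π) with hr
  set T : ℝ := (2 * π * round r - β) / N with hT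
  have e1 : N * T + β = round r * (2 * π) := by rw [hT]; field_simp; ring
  have e2 : T + α - 2 * π * l = 2 * π * (round r - r) / N := by
    rw [hT, hr]; field_simp; ring
  have e3 : |T + α - 2 * π * l| ≤ π / N := by
    rw [e2, abs_div, abs_of_pos h0, abs_mul, abs_of_pos (by positivity : (0 : ℝ) < 2 * π),
      abs_sub_comm]
    have := abs_sub_round r
    gcongr
    nlinarith
  refine ⟨T, ?_, ?_⟩
  · have := (abs_le.1 e3).1
    linarith
  · have hi : ⟪φ N (-T) y, A N (x₀ N)⟫ = √(1 - (1 / (N : ℝ)) ^ 2) *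
        (-sin T * y 0 + cos T * y 1) + (-sin (N * T) * y 2 + cos (N * T) * y 3) := by
      rw [inn]; simp [φ, A, R_ap, x₀, h0.ne']; ring
    rw [hi, ← polar, ← polar, ← hα, ← hβ, e1, cos_int_mul_two_pi, mul_one]
    have h3 : cos (π / N) ≤ cos (T + α) := by
      rw [show T + α = (T + α - 2 * π * l) + l * (2 * π) by ring, cos_add_int_mul_two_pi,
        ← cos_abs (T + α - 2 * π * l)]
      exact cos_le_cos_of_nonneg_of_le_pi (abs_nonneg _) pN e3
    have n := inn y y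
    rw [real_inner_self_eq_norm_sq, hy] at n
    have n1 : ‖(⟨y 1, y 0⟩ : ℂ)‖ ^ 2 = y 1 * y 1 + y 0 * y 0 := by
      rw [← Complex.normSq_eq_norm_sq, Complex.normSq_mk]
    have n2 : ‖(⟨y 3, y 2⟩ : ℂ)‖ ^ 2 = y 3 * y 3 + y 2 * y 2 := by
      rw [← Complex.normSq_eq_norm_sq, Complex.normSq_mk]
    have p1 := norm_nonneg (⟨y 1, y 0⟩ : ℂ)
    have p2 := norm_nonneg (⟨y 3, y 2⟩ : ℂ)
    have ha := a_le N
    have ha0 := sqrt_nonneg (1 - (1 / (N : ℝ)) ^ 2)
    generalize √(1 - (1 / (N : ℝ)) ^ 2) = a at ha ha0 ⊢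
    generalize ‖(⟨y 1, y 0⟩ : ℂ)‖ = P at n1 p1 ⊢
    generalize ‖(⟨y 3, y 2⟩ : ℂ)‖ = Q at n2 p2 ⊢
    generalize cos (T + α) = C at h3 ⊢
    have c1 := cos_le_one (π / N)
    generalize cos (π / N) = c at cN h3 c1 ⊢
    have s1 : 1 ≤ P + Q := by nlinarith
    have s2 : a * c ≤ 1 := by nlinarith
    have s3 : 0 ≤ a * c := by positivity
    have s4 : a * (P * c) ≤ a * (P * C) := by gcongr
    nlinarith

lemma conj_real {η : ℝ} (hη : η < 1 / 2) (T₀ θ₀ q : ℝ) : ∃ (m j : ℤ) (b : ℝ),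
    0 < T₀ + m * (2 * π) ∧ b ^ 2 ≤ 1 ∧
    (θ₀ + j * (2 * π)) ^ 2 / 2 + (T₀ + m * (2 * π)) * (θ₀ + j * (2 * π)) * (-b) + q ^ 2 / 2 +
      (T₀ + m * (2 * π)) ^ 2 * η = 0 := by
  have p := pi_pos
  -- the speed
  obtain ⟨s, s1, sa, sb⟩ : ∃ s : ℝ, 1 ≤ s ∧ s ^ 2 / 2 - s + η < 0 ∧ 0 ≤ s ^ 2 / 2 + s + η := by
    rcases le_total (-2 * η) 1 with h | h
    · exact ⟨1, le_rfl, by linarith, by linarith⟩
    · have h3 : 1 ≤ √(-2 * η) := one_le_sqrt.2 h
      have h4 := sq_sqrt (show 0 ≤ -2 * η by linarith)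
      exact ⟨√(-2 * η), h3, by linarith, by linarith⟩
  set κ : ℝ := -(s ^ 2 / 2 - s + η) with hκ
  have κ0 : 0 < κ := by linarith
  obtain ⟨m, hm⟩ := exists_int_gt
    ((((s - 1) * (2 * π) + 2 * π ^ 2 + q ^ 2 / 2) / κ + 1 - T₀) / (2 * π))
  rw [div_lt_iff₀ (by positivity)] at hm
  obtain ⟨T, hT⟩ : ∃ T, T = T₀ + m * (2 * π) := ⟨_, rfl⟩
  have hq : 0 ≤ ((s - 1) * (2 * π) + 2 * π ^ 2 + q ^ 2 / 2) := by
    have : 0 ≤ (s - 1) * (2 * π) := mul_nonneg (by linarith) (by positivity)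
    positivity
  have T1 : 1 < T := by
    have : 0 ≤ ((s - 1) * (2 * π) + 2 * π ^ 2 + q ^ 2 / 2) / κ := div_nonneg hq κ0.le
    linarith
  have T2 : ((s - 1) * (2 * π) + 2 * π ^ 2 + q ^ 2 / 2) ≤ κ * T := by
    have := (div_le_iff₀ κ0).1 (show ((s - 1) * (2 * π) + 2 * π ^ 2 + q ^ 2 / 2) / κ ≤ T by
      linarith)
    linarith
  obtain ⟨θ, hθ⟩ : ∃ θ, θ = θ₀ + ⌈(s * T - θ₀) / (2 * π)⌉ * (2 * π) := ⟨_, rfl⟩
  have t1 := (div_le_iff₀ (by positivity)).1 (Int.le_ceil ((s * T - θ₀) / (2 * π)))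
  have t2 := (lt_div_iff₀ (by positivity)).1
    (sub_lt_iff_lt_add.2 (Int.ceil_lt_add_one ((s * T - θ₀) / (2 * π))))
  obtain ⟨δ, hδ⟩ : ∃ δ, δ = θ - s * T := ⟨_, rfl⟩
  have d1 : 0 ≤ δ := by linarith
  have d2 : δ ≤ 2 * π := by linarith
  have hθ' : θ = s * T + δ := by linarith
  have T0 : 0 < T := by linarith
  have t6 : 0 < θ := by nlinarith
  refine ⟨m, ⌈(s * T - θ₀) / (2 * π)⌉, (θ ^ 2 / 2 + q ^ 2 / 2 + T ^ 2 * η) / (T * θ), ?_, ?_, ?_⟩
  · rw [← hT]; exact T0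
  · rw [sq_le_one_iff_abs_le_one, abs_le]
    constructor
    · rw [le_div_iff₀ (by positivity), hθ']
      nlinarith [mul_nonneg sb (sq_nonneg T), mul_nonneg d1 T0.le, mul_nonneg (mul_nonneg d1 T0.le)
        (by linarith : 0 ≤ s), sq_nonneg δ, sq_nonneg q]
    · rw [div_le_one (by positivity), hθ']
      have : (s - 1) * (T * δ) ≤ (s - 1) * (T * (2 * π)) := by gcongr
      have : δ ^ 2 ≤ (2 * π) ^ 2 := by gcongr
      nlinarith [mul_le_mul_of_nonneg_left T2 T0.le, sq_nonneg q, mul_nonneg (sq_nonneg q)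
        (by linarith : 0 ≤ T - 1), mul_nonneg (sq_nonneg π) (by linarith : 0 ≤ T - 1)]
  · rw [← hT, ← hθ]
    field_simp
    ring

/-- the case of a target whose first component is conjugate to the starting point -/
lemma conj {N : ℕ} (hN : 1 ≤ N) {η T₀ : ℝ} (hη : η < 1 / 2) (y : W k) {θ₀ : ℝ}
    (h0 : φ N (-T₀) y.1 = cos θ₀ • x₀ N) (hs : sin θ₀ = 0) :
    ∃ T > 0, ∃ γ, Traj (L N) (-η) T γ ∧ γ 0 = (x₀ N, 0) ∧ γ T = y := by
  obtain ⟨m, j, b, T0, hb, e⟩ := conj_real hη T₀ θ₀ ‖y.2‖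
  have b2 := sq_sqrt (show 0 ≤ 1 - b ^ 2 by linarith)
  have a2 := sq_sqrt (sub_nonneg.2 (inv_le hN))
  have w1 : ⟪(!₂[1 / N * √(1 - b ^ 2), 0, -√(1 - (1 / (N : ℝ)) ^ 2) * √(1 - b ^ 2), -b] : E),
      !₂[1 / N * √(1 - b ^ 2), 0, -√(1 - (1 / (N : ℝ)) ^ 2) * √(1 - b ^ 2), -b]⟫ = 1 := by
    rw [inn]
    simp only [Matrix.cons_val]
    linear_combination (√(1 - b ^ 2) ^ 2) * a2 + b2
  have w2 : ⟪x₀ N, (!₂[1 / N * √(1 - b ^ 2), 0, -√(1 - (1 / (N : ℝ)) ^ 2) * √(1 - b ^ 2), -b] : E)⟫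
      = 0 := by
    rw [inn]
    simp only [x₀, Matrix.cons_val]
    ring
  refine reach hN (θ := θ₀ + j * (2 * π)) T0 (nrm w1) w2 ?_ ?_
  · rw [cos_add_int_mul_two_pi, sin_add_int_mul_two_pi, hs, zero_smul, add_zero,
      show -(T₀ + m * (2 * π)) = -T₀ + (-m : ℤ) * (2 * π) by push_cast; ring, φ_per, h0]
  · rw [inn_A hN]
    simp only [Matrix.cons_val]
    linear_combination e

lemma conn {N : ℕ} (hN : 2 ≤ N) {η : ℝ}
    (hη : 2 * η < (√(1 - (1 / (N : ℝ)) ^ 2) * cos (π / N)) ^ 2) {y : W k} (hy : ‖y.1‖ = 1) :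
    ∃ T > 0, ∃ γ, Traj (L N) (-η) T γ ∧ γ 0 = (x₀ N, 0) ∧ γ T = y := by
  have p := pi_pos
  have hN1 : 1 ≤ N := by omega
  obtain ⟨cN, -⟩ := cosN hN
  obtain ⟨c, hc⟩ : ∃ c, c = √(1 - (1 / (N : ℝ)) ^ 2) * cos (π / N) := ⟨_, rfl⟩
  have c0 : 0 ≤ c := by rw [hc]; positivity
  have c1 : c ≤ 1 := by
    rw [hc]
    exact mul_le_one₀ (a_le N) cN (cos_le_one _)
  rw [← hc] at hη
  have hη' : η < 1 / 2 := by nlinarith
  let a : ℝ → ℝ := fun T => ⟪x₀ N, φ N (-T) y.1⟫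
  have cz : Continuous fun T => φ N (-T) y.1 :=
    (continuous_iff_continuousAt.2 fun t => (φ_der N (hasDerivAt_const t y.1)).continuousAt).comp
      continuous_neg
  have zz : ∀ T, ⟪φ N (-T) y.1, φ N (-T) y.1⟫ = 1 := fun T => by
    rw [φ_inn, real_inner_self_eq_norm_sq, hy, one_pow]
  have n : ∀ T, ‖φ N (-T) y.1 - a T • x₀ N‖ = sin (arccos (a T)) := fun T => by
    simp only [sin_arccos, norm_eq_sqrt_real_inner, inner_sub_left, inner_sub_right,
      real_inner_smul_left, real_inner_smul_right, zz, x1 hN1, real_inner_comm (x₀ N), a]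
    congr 1; ring
  have ca : ∀ T, cos (arccos (a T)) = a T := fun T => by
    have := abs_real_inner_le_norm (x₀ N) (φ N (-T) y.1)
    rw [φ_norm, hy, nrm (x1 hN1), one_mul, abs_le] at this
    exact cos_arccos this.1 this.2
  by_cases h : ∃ T, sin (arccos (a T)) = 0
  · obtain ⟨T₀, h⟩ := h
    refine conj hN1 hη' y (T₀ := T₀) (θ₀ := arccos (a T₀)) ?_ h
    rw [ca]
    exact sub_eq_zero.1 (norm_eq_zero.1 ((n T₀).trans h))
  push Not at h
  obtain ⟨T₁, h1, h2⟩ := big hN hy ((π ^ 2 + ‖y.2‖ ^ 2) / (c ^ 2 - 2 * η) + 1)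
  rw [← hc] at h2
  have hκ : 0 < c ^ 2 - 2 * η := by linarith
  have h3 : 0 ≤ (π ^ 2 + ‖y.2‖ ^ 2) / (c ^ 2 - 2 * η) := by positivity
  have h4 : π ^ 2 + ‖y.2‖ ^ 2 ≤ T₁ * (c ^ 2 - 2 * η) :=
    (div_le_iff₀ hκ).1 (by linarith)
  have h5 : 1 ≤ T₁ := by linarith
  let w : ℝ → E := fun T => (sin (arccos (a T)))⁻¹ • (φ N (-T) y.1 - a T • x₀ N)
  have ca' : Continuous a := continuous_const.inner cz
  have cw : Continuous w :=
    ((continuous_sin.comp (continuous_arccos.comp ca')).inv₀ h).smul (cz.sub (ca'.smul continuous_const))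
  obtain ⟨j, hj⟩ : ∃ j : ℤ, |arccos (a T₁) + j * (2 * π) + T₁ * ⟪w T₁, A N (x₀ N)⟫| ≤ π := by
    have := abs_sub_round ((arccos (a T₁) + T₁ * ⟪w T₁, A N (x₀ N)⟫) / (2 * π))
    refine ⟨-round ((arccos (a T₁) + T₁ * ⟪w T₁, A N (x₀ N)⟫) / (2 * π)), ?_⟩
    rw [div_sub' (by positivity), abs_div, abs_of_pos (a := 2 * π) (by positivity),
      div_le_iff₀ (by positivity)] at this
    exact (congrArg abs (by push_cast; ring)).trans_le (this.trans_eq (by ring))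
  let G : ℝ → ℝ := fun T => (arccos (a T) + j * (2 * π)) ^ 2 / 2 +
    T * (arccos (a T) + j * (2 * π)) * ⟪w T, A N (x₀ N)⟫ + ‖y.2‖ ^ 2 / 2 + T ^ 2 * η
  have G0 : 0 < G 0 := by
    have : arccos (a 0) + j * (2 * π) ≠ 0 := fun e => h 0 (by
      rw [← sin_add_int_mul_two_pi _ j, e, sin_zero])
    have := sq_pos_of_ne_zero this
    have := sq_nonneg ‖y.2‖
    simp only [G]
    linarith
  have G1 : G T₁ ≤ 0 := by
    have e : sin (arccos (a T₁)) * ⟪w T₁, A N (x₀ N)⟫ = ⟪φ N (-T₁) y.1, A N (x₀ N)⟫ := by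
      have : ⟪x₀ N, A N (x₀ N)⟫ = 0 := by
        rw [inn_A hN1]
        simp [x₀]
      simp only [w, real_inner_smul_left, inner_sub_left, this, mul_inv_cancel_left₀ (h _)]
      ring
    have q : c ^ 2 ≤ ⟪w T₁, A N (x₀ N)⟫ ^ 2 := by
      have : c ^ 2 ≤ (sin (arccos (a T₁)) * ⟪w T₁, A N (x₀ N)⟫) ^ 2 := by
        rw [e]; exact pow_le_pow_left₀ c0 h2 2
      rw [mul_pow] at this
      nlinarith [sin_sq_le_one (arccos (a T₁)), sq_nonneg ⟪w T₁, A N (x₀ N)⟫]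
    have q1 := sq_le_sq' (abs_le.1 hj).1 (abs_le.1 hj).2
    have q2 : T₁ * (c ^ 2 - 2 * η) ≤ T₁ ^ 2 * (c ^ 2 - 2 * η) := by
      gcongr
      nlinarith
    simp only [G]
    nlinarith [mul_le_mul_of_nonneg_left q (sq_nonneg T₁)]
  obtain ⟨T, ⟨t0, -⟩, hT⟩ := intermediate_value_Icc' (f := G) (by linarith : 0 ≤ T₁)
    (by fun_prop) ⟨G1, G0.le⟩
  refine reach hN1 (w := w T) (θ := arccos (a T) + j * (2 * π))
    (t0.lt_of_ne fun e => G0.ne' (e ▸ hT)) ?_ ?_ ?_ hT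
  · rw [norm_smul, n, norm_inv, norm_of_nonneg (n T ▸ norm_nonneg _), inv_mul_cancel₀ (h _)]
  · simp only [w, real_inner_smul_right, inner_sub_right, x1 hN1, a]; ring
  · rw [cos_add_int_mul_two_pi, sin_add_int_mul_two_pi, ca, smul_inv_smul₀ (h _), add_sub_cancel]

lemma exN {ε : ℝ} (hε : 0 < ε) : ∃ N : ℕ, 2 ≤ N ∧
    1 - 2 * ε < (√(1 - (1 / (N : ℝ)) ^ 2) * cos (π / N)) ^ 2 := by
  have h1 : Filter.Tendsto (fun N : ℕ => (√(1 - (1 / (N : ℝ)) ^ 2) * cos (π / N)) ^ 2)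
      Filter.atTop (nhds ((√(1 - 0 ^ 2) * cos 0) ^ 2)) := by
    have a1 := tendsto_const_div_atTop_nhds_zero_nat (1 : ℝ)
    have a2 := tendsto_const_div_atTop_nhds_zero_nat π
    exact (((continuous_sqrt.tendsto _).comp ((a1.pow 2).const_sub 1)).mul
      ((continuous_cos.tendsto _).comp a2)).pow 2
  have h2 : (1 - 2 * ε) < (√(1 - 0 ^ 2) * cos 0) ^ 2 := by simp; linarith
  obtain ⟨N, h3, h4⟩ := ((h1.eventually_const_lt h2).and (Filter.eventually_ge_atTop 2)).exists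
  exact ⟨N, h4, h3⟩

section SimplyConnected

open Metric

lemma lin {x : E} (a b : Path x x) (h : ∀ s ∈ Icc (0 : ℝ) 1, ∀ t, (1 - s) • a t + s • b t ≠ 0) :
    ∃ F : a.Homotopy b, ∀ t, F t ≠ 0 :=
  ⟨{ toFun := fun z => (1 - (z.1 : ℝ)) • a z.2 + (z.1 : ℝ) • b z.2
     continuous_toFun := by fun_prop
     map_zero_left := by simp
     map_one_left := by simp
     prop' := by
      rintro s t (rfl | rfl) <;> simp [← add_smul] }, fun z => h _ z.1.2 _⟩

/-- `S^3` is simply connected (proof of an earlier run) -/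
lemma sc : IsSimplyConnected (sphere (0 : E) 1) := by
  refine isSimplyConnected_iff_exists_homotopy_refl_forall_mem.2 ⟨isPathConnected_sphere (by
    rw [← Module.finrank_eq_rank]; simp) _ zero_le_one, fun x p hp => ?_⟩
  simp only [mem_sphere_zero_iff_norm] at hp ⊢
  have hx : ‖x‖ = 1 := by simpa using hp 0
  obtain ⟨q, h1, h2, -⟩ := p.continuous_extend.exists_contDiff_approx 1 (ε := fun _ => 1 / 4)
    continuous_const fun _ => by norm_num
  let r : ℝ → E := fun t => q t + (1 - t) • (x - q 0) + t • (x - q 1)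
  have h3 : ContDiff ℝ 1 fun z : ℝ × ℝ × ℝ => z.1 • (r z.2.1 + z.2.2 • x) := by
    have : ContDiff ℝ 1 q := h1
    fun_prop
  obtain ⟨z, h4, h5⟩ := (h3.dense_compl_range_of_finrank_lt_finrank (by simp)).exists_mem_open
    (isOpen_ball (x := 0) (ε := 1 / 4)) ⟨0, by simp⟩
  let b : Path x x :=
    { toFun := fun t => r t + ((t : ℝ) * (1 - t)) • z
      continuous_toFun := by have := h1.continuous; fun_prop
      source' := by simp [r]
      target' := by simp [r] }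
  have hb : ∀ t, ‖b t - p t‖ < 1 := fun t => by
    have a1 := h2 t
    have a2 := h2 0
    have a3 := h2 1
    simp only [Path.extend_extends', Path.extend_zero, Path.extend_one, dist_eq_norm] at a1 a2 a3
    rw [norm_sub_rev] at a2 a3
    rw [mem_ball_zero_iff] at h5
    have e : b t - p t = (q t - p t) + (1 - (t : ℝ)) • (x - q 0) + (t : ℝ) • (x - q 1) +
        ((t : ℝ) * (1 - t)) • z := by
      show r t + ((t : ℝ) * (1 - t)) • z - p t = _
      simp only [r]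
      abel
    have t0 := t.2.1
    have t1 := sub_nonneg.2 t.2.2
    rw [e]
    refine (norm_add₄_le.trans_lt ?_)
    rw [norm_smul, norm_smul, norm_smul, Real.norm_of_nonneg t0, Real.norm_of_nonneg t1,
      Real.norm_of_nonneg (mul_nonneg t0 t1)]
    have a4 : (t : ℝ) * (1 - t) * ‖z‖ ≤ 1 * ‖z‖ :=
      mul_le_mul_of_nonneg_right (by nlinarith) (norm_nonneg _)
    nlinarith [mul_le_mul_of_nonneg_left a2.le t1, mul_le_mul_of_nonneg_left a3.le t0]
  obtain ⟨F, hF⟩ := lin p b fun s hs t h => by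
    have e : p t = (-s) • (b t - p t) := by linear_combination (norm := module) h
    have := hp t
    rw [e, norm_smul, norm_neg, Real.norm_of_nonneg hs.1] at this
    nlinarith [hb t, hs.1, hs.2, norm_nonneg (b t - p t)]
  obtain ⟨G, hG⟩ := lin b (.refl x) fun s hs t h => by
    have hx0 : x ≠ 0 := by rintro rfl; simp at hx
    by_cases h6 : (1 - s) * ((t : ℝ) * (1 - t)) = 0
    · have : s = 1 ∨ t = 0 ∨ t = 1 := by
        simp only [mul_eq_zero, sub_eq_zero] at h6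
        rcases h6 with h6 | h6 | h6
        exacts [.inl h6.symm, .inr (.inl (Subtype.ext h6)), .inr (.inr (Subtype.ext h6.symm))]
      rcases this with rfl | rfl | rfl <;> simp [← add_smul, hx0] at h
    · have h7 := left_ne_zero_of_mul h6
      have h8 := right_ne_zero_of_mul h6
      refine h4 ⟨(-((t : ℝ) * (1 - t))⁻¹, t, s / (1 - s)), smul_right_injective E h6 ?_⟩
      have h : (1 - s) • (r t + ((t : ℝ) * (1 - t)) • z) + s • x = 0 := h
      generalize (t : ℝ) * (1 - t) = c at *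
      simp only [smul_smul, smul_add] at h ⊢
      rw [show (1 - s) * c * -c⁻¹ = -(1 - s) by field_simp,
        show (1 - s) * c * (-c⁻¹ * (s / (1 - s))) = -s by field_simp]
      linear_combination (norm := module) -h
  have hH : ∀ t, F.trans G t ≠ 0 := fun t => by
    rw [Path.Homotopy.trans_apply]
    split_ifs
    exacts [hF _, hG _]
  generalize F.trans G = H at hH
  refine ⟨{ toFun := fun z => ‖H z‖⁻¹ • H z
            continuous_toFun := (H.continuous.norm.inv₀ fun z => norm_ne_zero_iff.2 (hH z)).smul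
              H.continuous
            map_zero_left := by simp [hp]
            map_one_left := by simp [hx]
            prop' := by rintro s t (rfl | rfl) <;> simp [hx] }, fun z => ?_⟩
  exact norm_smul_inv_norm (𝕜 := ℝ) (hH z)

/-- `S^3 × ℝ^k` is homotopy equivalent to `S^3` -/
noncomputable def heq (k : ℕ) : ContinuousMap.HomotopyEquiv (Cov k) (sphere (0 : E) 1) where
  toFun := ⟨fun x => ⟨x.1.1, mem_sphere_zero_iff_norm.2 x.2⟩, by fun_prop⟩
  invFun := ⟨fun x => ⟨(x.1, 0), mem_sphere_zero_iff_norm.1 x.2⟩, by fun_prop⟩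
  left_inv := ⟨{
    toFun := fun z => ⟨(z.2.1.1, (z.1 : ℝ) • z.2.1.2), z.2.2⟩
    continuous_toFun := by fun_prop
    map_zero_left := fun x => by simp
    map_one_left := fun x => by simp }⟩
  right_inv := ContinuousMap.Homotopic.refl _

lemma simply (k : ℕ) : SimplyConnectedSpace (Cov k) := by
  have : SimplyConnectedSpace (sphere (0 : E) 1) := sc
  exact (heq k).simplyConnectedSpace

end SimplyConnected

theorem main (k : ℕ) (ε : ℝ) (hε : 0 < ε) :
    SimplyConnectedSpace (Cov k) ∧ ∃ L : W k → W k → ℝ, Tonelli L ∧ IsGLB (Crit L) 0 ∧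
      IsGreatest {e | ∃ x ∈ Cov k, e = energy L x 0} (-1 / 2) ∧
      (∃ x ∈ Cov k, ∀ h, -1 / 2 + ε ≤ h → h ∈ ConnFrom L x) ∧
      ∃ r, IsGLB (Conn L) r ∧ -1 / 2 ≤ r ∧ r ≤ -1 / 2 + ε := by
  obtain ⟨N, hN, hNε⟩ := exN hε
  have hN1 : 1 ≤ N := by omega
  have x₀C : ((x₀ N, 0) : W k) ∈ Cov k := nrm (x1 hN1)
  have hconn : ∀ h, -1 / 2 + ε ≤ h → h ∈ ConnFrom (L (k := k) N) (x₀ N, 0) := fun h hh y hy => by
    have := conn (k := k) hN (η := -h) (by linarith) hy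
    rwa [neg_neg] at this
  have hA : ∀ u : E, ‖u‖ = 1 → 1 ≤ ‖A N u‖ ^ 2 := fun u hu => by
    have h1 := inn u u
    rw [real_inner_self_eq_norm_sq, hu] at h1
    rw [← real_inner_self_eq_norm_sq, inn]
    have h2 : (1 : ℝ) ≤ N := by exact_mod_cast hN1
    have h3 : (1 : ℝ) ≤ N * N := by nlinarith
    simp [A, R_ap]
    nlinarith [mul_self_nonneg (u 2), mul_self_nonneg (u 3), mul_nonneg (sub_nonneg.2 h3)
      (mul_self_nonneg (u 2)), mul_nonneg (sub_nonneg.2 h3) (mul_self_nonneg (u 3))]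
  have e1 : ‖(!₂[1, 0, 0, 0] : E)‖ = 1 := nrm (by rw [inn]; simp)
  have e2 : ‖A N (!₂[1, 0, 0, 0] : E)‖ ^ 2 = 1 := by
    rw [← real_inner_self_eq_norm_sq, inn]; simp [A, R_ap]
  have hlow : ∀ h ∈ Conn (L (k := k) N), -1 / 2 ≤ h := by
    rintro h ⟨x, -, hx⟩
    obtain ⟨T, hT, γ, ⟨γ', hγ⟩, -, h1⟩ := hx (!₂[1, 0, 0, 0], 0) e1
    obtain ⟨-, -, h2, -⟩ := hγ T ⟨hT.le, le_rfl⟩
    rw [h1, en, e2] at h2
    nlinarith [sq_nonneg ‖(γ' T).1‖, sq_nonneg ‖(γ' T).2‖]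
  refine ⟨simply k, L N, ton N, ⟨fun c hc => ?_, fun b hb => hb fun T hT γ _ _ _ =>
    intervalIntegral.integral_nonneg hT.le fun t _ => by unfold L; positivity⟩,
    ⟨⟨(!₂[1, 0, 0, 0], 0), e1, ?_⟩, ?_⟩, ⟨(x₀ N, 0), x₀C, hconn⟩, ?_⟩
  · -- a closed curve of action zero
    have d : ∀ t, HasDerivAt (fun s => ((φ N s (x₀ N), 0) : W k)) (A N (φ N t (x₀ N)), 0) t :=
      fun t => by
        simpa using (φ_der N (hasDerivAt_const t (x₀ N))).prodMk
          (hasDerivAt_const t (0 : EuclideanSpace ℝ (Fin k)))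
    have hC : ContDiff ℝ 1 (fun s => ((φ N s (x₀ N), 0) : W k)) := by
      refine ContDiff.prodMk (contDiff_euclidean.2 fun i => ?_) contDiff_const
      fin_cases i <;> simp [φ, R_ap] <;> fun_prop
    have := hc (2 * π) (by positivity) (fun s => (φ N s (x₀ N), 0))
      hC.contDiffOn.absolutelyContinuousOnInterval
      (by simpa using congrArg (fun f => ((f (x₀ N), 0) : W k)) (φ_per N 0 1).symm)
      fun t _ => (φ_norm _ _ _).trans (nrm (x1 hN1))
    simp [(d _).deriv, L] at this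
    exact nonneg_of_mul_nonneg_right this (by positivity)
  · rw [en, e2]; norm_num
  · rintro e ⟨x, hx, rfl⟩
    rw [en]
    have := hA x.1 hx
    simp only [Prod.fst_zero, Prod.snd_zero, norm_zero]
    linarith
  · have hne : (-1 / 2 + ε) ∈ Conn (L (k := k) N) := ⟨_, x₀C, hconn _ le_rfl⟩
    refine ⟨sInf (Conn (L (k := k) N)), isGLB_csInf ⟨_, hne⟩ ⟨_, hlow⟩, le_csInf ⟨_, hne⟩ hlow,
      csInf_le ⟨_, hlow⟩ hne⟩


end Pool.Agent.H19.Mn
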